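import Mathlib

set_option autoImplicit false

namespace Pool.Agent.Results.MP_ce2a64_co.No

open SimpleGraph

/-- radio graceful graphs -/
def RG {V : Type} [Fintype V] (G : SimpleGraph V) : Prop :=
  ∃ f : V ≃ Fin (Fintype.card V), ∀ u v, u ≠ v → (G.diam : ℤ) + 1 - G.dist u v ≤ |((f u : ℕ) : ℤ) - (f v : ℕ)|

theorem result : ∃ (G : SimpleGraph (Fin 10)) (H : SimpleGraph (Fin 3)),
    G.Connected ∧ H.Connected ∧ RG (G □ H) ∧ ¬RG G := by
  let G : SimpleGraph (Fin 10) := .fromRel fun u v =>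
    if u = 0 ∨ v = 0 then (u.1 + v.1) % 3 = 2 else (u.1 - 1) / 3 ≠ (v.1 - 1) / 3
  have : DecidableRel G.Adj := fun u v => decidable_of_iff _ (fromRel_adj _ u v).symm
  have e : ∀ u v, G.edist u v = ((if u = v then 0 else if G.Adj u v then 1 else 2 : ℕ) : ℕ∞) := fun u v => by
    split_ifs with a b
    · simp [a]
    · simpa using b
    obtain ⟨w, p, q⟩ : ∃ w, G.Adj u w ∧ G.Adj w v := by
      revert u v
      simp only [G, fromRel_adj]
      decide +kernel
    exact (edist_le (.cons p (.cons q .nil))).antisymm (Order.add_one_le_of_lt (x := 1) (lt_of_le_of_ne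
      (Order.one_le_iff_pos.2 (edist_pos_of_ne a)) (mt edist_eq_one_iff_adj.1 b ·.symm)))
  have c : G.Connected := connected_iff_exists_forall_reachable _ |>.2
    ⟨0, fun v => edist_ne_top_iff_reachable.1 (e 0 v ▸ ENat.natCast_ne_top _)⟩
  refine ⟨G, ⊤, c, connected_top, ?_, fun ⟨f, h⟩ => ?_⟩
  · have d : ∀ u v, (G □ (⊤ : SimpleGraph (Fin 3))).edist u v =
        (((if u.1 = v.1 then 0 else if G.Adj u.1 v.1 then 1 else 2) + if u.2 = v.2 then 0 else 1 : ℕ) : ℕ∞) :=
      fun u v => by simp [edist_boxProd, e, edist_top]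
    have m : (G □ (⊤ : SimpleGraph (Fin 3))).diam ≤ 3 := ENat.toNat_le_of_le_natCast (ediam_le_iff.2 fun u v => by
      rw [d, Nat.cast_le]
      split_ifs <;> omega)
    let l : Fin 10 × Fin 3 → Fin 30 := fun x =>
      ![![0, 10, 20], ![4, 1, 7], ![8, 5, 2], ![6, 3, 9], ![11, 17, 14], ![18, 15, 12], ![13, 19, 16], ![21, 24, 27],
        ![28, 22, 25], ![23, 26, 29]] x.1 x.2
    refine ⟨.ofBijective l (by decide +kernel), fun u v n => ?_⟩
    refine le_trans (b := 4 - ((G □ ⊤).dist u v : ℤ)) (by omega) ?_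
    rw [SimpleGraph.dist, d, ENat.toNat_natCast]
    revert u v
    simp only [G, fromRel_adj, Equiv.ofBijective_apply]
    decide +kernel
  have m : 2 ≤ G.diam := (dist_le_diam (connected_iff_ediam_ne_top.1 c) (u := 0) (v := 1)).trans_eq' (by
    rw [SimpleGraph.dist, e, if_neg (by decide), if_neg (by simp [G])]; rfl)
  have k : ∀ u v : Fin 10, u ≠ 0 → v ≠ 0 → (f v).1 = f u + 1 → (u.1 - 1) / 3 = (v.1 - 1) / 3 := fun u v a b z => by
    by_contra n
    have n' : u ≠ v := by rintro rfl; omega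
    have := h u v n'
    rw [dist_eq_one_iff_adj.2 (show G.Adj u v from ⟨n', .inl (by simpa [a, b] using n)⟩), z] at this
    simp at this
    omega
  have w : ∀ j (u v : Fin 10), (f v).1 = f u + j → ((f 0).1 < f u ∨ (f v).1 < f 0) →
      (u.1 - 1) / 3 = (v.1 - 1) / 3 := fun j => by
    induction j with
    | zero => exact fun u v a _ => f.injective (Fin.ext a) ▸ rfl
    | succ j ih =>
      intro u v a b
      obtain ⟨x, y⟩ := f.surjective ⟨f u + j, by omega⟩
      have y := congrArg Fin.val y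
      exact (ih u x y (by dsimp only at y; omega)).trans
        (k x v (by rintro rfl; dsimp only at y; omega) (by rintro rfl; omega) (by dsimp only at y; omega))
  have z : ∀ u v : Fin 10, (f u).1 ≤ f v → ((f 0).1 < f u ∨ (f v).1 < f 0) → (u.1 - 1) / 3 = (v.1 - 1) / 3 :=
    fun u v a => w _ u v (Nat.add_sub_cancel' a).symm
  have y : ∀ u : Fin 10, u ≠ 0 → (f u).1 ≠ f 0 := fun u a b => a (f.injective (Fin.ext b))
  have := y 1 (by decide)
  have := y 4 (by decide)
  have := y 7 (by decide)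
  have := z 1 4
  have := z 4 1
  have := z 1 7
  have := z 7 1
  have := z 4 7
  have := z 7 4
  simp only [Fin.isValue, Fin.coe_ofNat_eq_mod] at *
  omega

end Pool.Agent.Results.MP_ce2a64_co.No
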